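import Pool.Agent.helper67.RG.Spec

/-! Row PSM of project RG (MP_2e0e07_nt): all powers have trace `b`. -/

set_option linter.dupNamespace false

namespace Pool.Agent.RG.PSM

open Matrix Polynomial Pool.Agent.GO Pool.Agent.AR Pool.Agent.RG

theorem PSM_aeval {F : Type*} [Field F] {b : ℕ} (A : Matrix (Fin b) (Fin b) F)
    (h : ∀ k : ℕ, (A ^ k).trace = (b : F)) (q : F[X]) :
    (aeval A q).trace = (b : F) * q.eval 1 := by
  induction q using Polynomial.induction_on' with
  | add p q hp hq => rw [map_add, Matrix.trace_add, hp, hq, eval_add, mul_add]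
  | monomial n a =>
    rw [aeval_monomial, ← Algebra.smul_def, Matrix.trace_smul, h n, eval_monomial, one_pow,
      mul_one, smul_eq_mul, mul_comm]

theorem PSM_idem {F : Type*} [Field F] [CharZero F] {b : ℕ} (E : Matrix (Fin b) (Fin b) F)
    (hE : E * E = E) (h0 : E.trace = 0) : E = 0 := by
  have h1 : IsIdempotentElem (Matrix.toLin' E) := by
    show Matrix.toLin' E * Matrix.toLin' E = Matrix.toLin' E
    rw [Module.End.mul_eq_comp, ← Matrix.toLin'_mul, hE]
  have h2 := (LinearMap.isProj_range_iff_isIdempotentElem _).2 h1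
  have h3 := h2.trace
  rw [Matrix.trace_toLin'_eq, h0] at h3
  have h4 : Module.finrank F (LinearMap.range (Matrix.toLin' E)) = 0 := by exact_mod_cast h3.symm
  have h5 : LinearMap.range (Matrix.toLin' E) = ⊥ := Submodule.finrank_eq_zero.1 h4
  have h6 : Matrix.toLin' E = 0 := LinearMap.range_eq_bot.1 h5
  exact (LinearEquiv.map_eq_zero_iff Matrix.toLin').1 h6

theorem PSM : PSM_stmt := by
  intro F _ _ _ b A h
  rcases Nat.eq_zero_or_pos b with rfl | hb
  · rw [pow_zero]
    simp [Matrix.charpoly]
  have hb0 : (b : F) ≠ 0 := Nat.cast_ne_zero.2 hb.ne'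
  have hroot : A.charpoly.eval 1 = 0 := by
    have h1 := PSM_aeval A h A.charpoly
    rw [Matrix.aeval_self_charpoly, Matrix.trace_zero] at h1
    exact (mul_eq_zero.1 h1.symm).resolve_left hb0
  obtain ⟨q, hq, hnd⟩ := Polynomial.exists_eq_pow_rootMultiplicity_mul_and_not_dvd A.charpoly
    A.charpoly_monic.ne_zero 1
  set m := A.charpoly.rootMultiplicity 1 with hm
  have hmpos : 0 < m := (Polynomial.rootMultiplicity_pos A.charpoly_monic.ne_zero).2 hroot
  have hco : IsCoprime ((X - C (1 : F)) ^ m) q :=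
    (((Polynomial.irreducible_X_sub_C (1 : F)).coprime_iff_not_dvd).2 hnd).pow_left
  obtain ⟨u, v, huv⟩ := hco
  set E : Matrix (Fin b) (Fin b) F := aeval A (u * (X - C (1 : F)) ^ m) with hE
  have hvq : aeval A (v * q) = 1 - E := by
    rw [hE, ← map_one (aeval (R := F) A), ← map_sub, ← huv]
    congr 1
    ring
  have hprod : E * aeval A (v * q) = 0 := by
    rw [hE, ← map_mul]
    have : u * (X - C (1 : F)) ^ m * (v * q) = (u * v) * A.charpoly := by
      rw [hq]
      ring
    rw [this, map_mul, Matrix.aeval_self_charpoly, mul_zero]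
  have hidem : E * E = E := by
    rw [hvq, mul_sub, mul_one, sub_eq_zero] at hprod
    exact hprod.symm
  have htr : E.trace = 0 := by
    rw [hE, PSM_aeval A h, eval_mul, eval_pow, eval_sub, eval_X, eval_C, sub_self,
      zero_pow hmpos.ne', mul_zero, mul_zero]
  have hE0 : E = 0 := PSM_idem E hidem htr
  have hvq1 : aeval A v * aeval A q = 1 := by
    rw [← map_mul, hvq, hE0, sub_zero]
  have hnil : aeval A ((X - C (1 : F)) ^ m) = 0 := by
    have h1 : aeval A ((X - C (1 : F)) ^ m) * (aeval A q * aeval A v) = 0 := by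
      rw [← mul_assoc, ← map_mul, ← hq, Matrix.aeval_self_charpoly, zero_mul]
    have h2 : aeval A q * aeval A v = 1 := by
      rw [← map_mul, mul_comm, map_mul, hvq1]
    rw [h2, mul_one] at h1
    exact h1
  have hN : IsNilpotent (A - Matrix.scalar (Fin b) (1 : F)) := by
    refine ⟨m, ?_⟩
    rw [map_pow, map_sub, aeval_X, aeval_C] at hnil
    exact hnil
  have h7 := Matrix.isNilpotent_charpoly_sub_pow_of_isNilpotent hN
  have h8 : (A - Matrix.scalar (Fin b) (1 : F)).charpoly = X ^ b := by
    have := h7.eq_zero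
    rw [sub_eq_zero] at this
    simpa using this
  rw [Matrix.charpoly_sub_scalar] at h8
  have h9 := congrArg (fun p : F[X] => p.comp (X - C 1)) h8
  simp only [Polynomial.comp_assoc] at h9
  simpa using h9

end Pool.Agent.RG.PSM
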