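import Pool.Agent.helper67.RG.Spec

/-! Row SLT of project RG (MP_2e0e07_nt). -/

set_option linter.unusedSimpArgs false
set_option linter.dupNamespace false

namespace Pool.Agent.RG.SLT

open Matrix Polynomial Pool.Agent.GO Pool.Agent.AR Pool.Agent.RG

theorem SLT : SLT_stmt := by
  intro F A _ _ _ _ e f h1 h2 hee hff
  have two_ne : (2 : F) ≠ 0 := two_ne_zero
  have hefe : e * (f * e) = e := by
    have h3 : (e * f - f * e) * e - e * (e * f - f * e) = (2 : F) • (e * (f * e)) := by
      have : (e * f - f * e) * e - e * (e * f - f * e) =
          e * (f * e) + e * (f * e) - f * (e * e) - (e * e) * f := by noncomm_ring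
      rw [this, hee, mul_zero, zero_mul, sub_zero, sub_zero, two_smul]
    rw [h3] at h1
    exact smul_right_injective A two_ne h1
  have hfef : f * (e * f) = f := by
    have h3 : (e * f - f * e) * f - f * (e * f - f * e) = (-2 : F) • (f * (e * f)) := by
      have : (e * f - f * e) * f - f * (e * f - f * e) =
          -(f * (e * f)) - f * (e * f) + e * (f * f) + (f * f) * e := by noncomm_ring
      rw [this, hff, mul_zero, zero_mul, add_zero, add_zero, neg_smul, two_smul]
      abel
    rw [h3] at h2
    exact smul_right_injective A (neg_ne_zero.2 two_ne) h2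
  have hee' : ∀ x : A, e * (e * x) = 0 := fun x => by rw [← mul_assoc, hee, zero_mul]
  have hff' : ∀ x : A, f * (f * x) = 0 := fun x => by rw [← mul_assoc, hff, zero_mul]
  have hefe' : ∀ x : A, e * (f * (e * x)) = e * x := fun x => by
    rw [← mul_assoc f e x, ← mul_assoc e, hefe]
  have hfef' : ∀ x : A, f * (e * (f * x)) = f * x := fun x => by
    rw [← mul_assoc e f x, ← mul_assoc f, hfef]
  refine ⟨?_, ?_, ?_⟩
  · simp only [add_mul, mul_add, mul_assoc, hee, hff, hefe, hfef, hee', hff', hefe', hfef',
      mul_zero, add_zero, zero_add]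
  · intro x hx
    induction hx using Submodule.span_induction with
    | mem x hx =>
      rcases hx with rfl | rfl | rfl
      · constructor <;>
        simp only [add_mul, mul_add, mul_assoc, hee, hff, hefe, hfef, hee', hff', hefe', hfef',
          mul_zero, add_zero, zero_add]
      · constructor <;>
        simp only [add_mul, mul_add, mul_assoc, hee, hff, hefe, hfef, hee', hff', hefe', hfef',
          mul_zero, add_zero, zero_add]
      · constructor <;>
        simp only [add_mul, mul_add, sub_mul, mul_sub, mul_assoc, hee, hff, hefe, hfef, hee',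
          hff', hefe', hfef', mul_zero, add_zero, zero_add, sub_zero, zero_sub] <;> abel
    | zero => simp
    | add x y _ _ hx hy =>
      exact ⟨by rw [mul_add, hx.1, hy.1], by rw [add_mul, hx.2, hy.2]⟩
    | smul a x _ hx =>
      exact ⟨by rw [mul_smul_comm, hx.1], by rw [smul_mul_assoc, hx.2]⟩
  · intro a b c
    simp only [add_mul, mul_add, sub_mul, mul_sub, smul_mul_assoc, mul_smul_comm, mul_assoc, hee,
      hff, hefe, hfef, hee', hff', hefe', hfef', smul_sub, smul_add, smul_zero, mul_zero, sub_zero,
      zero_sub, add_zero, zero_add]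
    module

end Pool.Agent.RG.SLT
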